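import Pool.Agent.MP_c69980_ag.H43.Spec2

/-!
Row Dim: the transcendence degree of a point of `G` is at most the dimension.
-/

set_option autoImplicit false

namespace Pool.Agent.MP_c69980_ag.H43

open MvPolynomial H60 Set MeasureTheory Filter Topology

lemma dimExt (h : SEmb) {k : Subfield ℂ} (hk : Countable k) {n : ℕ} {f z : Fin n → ℂ}
    (hf : AlgebraicIndependent k f) (hz : AlgebraicIndependent k z) :
    ∃ σ : ℂ →+* ℂ, (∀ c ∈ k, σ c = c) ∧ ∀ i, σ (f i) = z i := by
  let K := IntermediateField.adjoin k (range f)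
  have c : Countable K.toSubfield := by
    rw [IntermediateField.adjoin_toSubfield]
    exact closure_countable ((countable_range _).union (countable_range _))
  let ψ : K →ₐ[k] ℂ := (IsFractionRing.liftAlgHom (K := FractionRing (MvPolynomial (Fin n) k))
    (algebraicIndependent_iff_injective_aeval.2 hz)).comp hf.reprField
  have e : ∀ P : MvPolynomial (Fin n) k, ψ (hf.aevalEquivField (algebraMap _ _ P)) = aeval z P := by
    intro P
    simp [ψ, AlgebraicIndependent.reprField]
  obtain ⟨σ, hσ⟩ := h.2 K.toSubfield c ψ.toRingHom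
  have e' : ∀ P : MvPolynomial (Fin n) k, σ (aeval f P) = aeval z P := fun P => by
    rw [← e, ← hf.aevalEquivField_algebraMap_apply_coe]
    exact hσ (hf.aevalEquivField (algebraMap _ _ P))
  refine ⟨σ, fun x hx => ?_, fun i => by simpa using e' (X i)⟩
  have := e' (C ⟨x, hx⟩)
  rwa [aeval_C, aeval_C] at this

lemma dimPoly {n : ℕ} {P : MvPolynomial (Fin n) ℂ} (h : P ≠ 0) :
    {z : Fin n → ℂ | eval z P ≠ 0} ∈ residual (Fin n → ℂ) := by
  refine residual_of_dense_open (isOpen_ne_fun P.continuous_eval continuous_const) fun x => ?_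
  by_contra hx
  rw [mem_closure_iff_frequently, not_frequently] at hx
  have := (AnalyticOnNhd.eval_mvPolynomial P).eq_of_eventuallyEq (g := fun _ => 0)
    analyticOnNhd_const (z₀ := x) (hx.mono fun y hy => by simpa using hy)
  exact h (MvPolynomial.funext fun y => by simpa using congrFun this y)

lemma dimInd {k : Subfield ℂ} (hk : Countable k) (n : ℕ) :
    {z : Fin n → ℂ | AlgebraicIndependent k z} ∈ residual (Fin n → ℂ) := by
  have c : Countable (MvPolynomial (Fin n) k) :=
    AddMonoidAlgebra.coeffEquiv.countable_iff.2 inferInstance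
  have : ∀ᶠ z in residual (Fin n → ℂ), ∀ P : {P : MvPolynomial (Fin n) k // P ≠ 0},
      eval z (map k.subtype P.1) ≠ 0 := eventually_countable_forall.2 fun P => dimPoly fun e =>
    P.2 (map_injective _ k.subtype_injective (e.trans (map_zero _).symm))
  refine mem_of_superset this fun z hz => algebraicIndependent_iff.2 fun P hP => ?_
  by_contra e
  exact hz ⟨P, e⟩ ((eval_map_sub z P).trans hP)

lemma dimImg {g : ℕ} {R : (Fin g → ℂ) → Fin (g + 1) → ℂ} {K : Set (Fin g → ℂ)} (hK : IsCompact K)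
    (hR : ∀ x ∈ K, DifferentiableAt ℂ R x) : (R '' K)ᶜ ∈ residual (Fin (g + 1) → ℂ) := by
  refine residual_of_dense_open (hK.image_of_continuousOn fun x hx =>
    (hR x hx).continuousAt.continuousWithinAt).isClosed.isOpen_compl ?_
  let T : (Fin (g + 1) → ℂ) →L[ℂ] Fin g → ℂ :=
    ContinuousLinearMap.pi fun i => ContinuousLinearMap.proj i.succ
  let S : Submodule ℝ (Fin (g + 1) → ℂ) :=
    LinearMap.ker (LinearMap.proj (R := ℝ) (φ := fun _ : Fin (g + 1) => ℂ) 0)
  have s0 : volume (S : Set (Fin (g + 1) → ℂ)) = 0 :=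
    Measure.addHaar_submodule _ S fun e => by
      have : (1 : Fin (g + 1) → ℂ) ∈ S := e ▸ Submodule.mem_top
      simp [S] at this
  have s1 := addHaar_image_eq_zero_of_differentiableOn_of_addHaar_eq_zero volume
    (f := R ∘ T) (s := S ∩ T ⁻¹' K) (fun x hx =>
      (((hR _ hx.2).comp x T.differentiableAt).restrictScalars ℝ).differentiableWithinAt)
    (measure_mono_null inter_subset_left s0)
  have s2 : volume (R '' K) = 0 := measure_mono_null (by
    rintro _ ⟨x, hx, rfl⟩
    have e : T (Fin.cons 0 x) = x := by ext i; simp [T]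
    exact ⟨Fin.cons 0 x, ⟨by simp [S], by simpa [e] using hx⟩, by simp [e]⟩) s1
  exact Measure.dense_of_ae (μ := volume) (p := fun x => x ∉ R '' K) (measure_eq_zero_iff_ae_notMem.1 s2)

theorem sDim (h : SEmb) : SDim := by
  rintro t a M w Θ g k hk hC p ⟨f, hf, hi⟩
  choose c b e using hf
  have d : ∀ c, Differentiable ℂ fun q => Θ q c := differentiable_pi.1 g.hol
  let R : Pt t a → Fin (t + a + 1) → ℂ := fun q i => Θ q (c i) / Θ q (b i)
  let K : ℕ → Set (Pt t a) := fun n =>
    Metric.closedBall 0 n ∩ ⋂ i, {q | 1 / ((n : ℝ) + 1) ≤ ‖Θ q (b i)‖}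
  have r : ∀ᶠ z in residual (Fin (t + a + 1) → ℂ), ∀ n, z ∉ R '' K n :=
    eventually_countable_forall.2 fun n => dimImg ((isCompact_closedBall _ _).inter_right
      (isClosed_iInter fun i => isClosed_le continuous_const (d _).continuous.norm)) fun x hx =>
      differentiableAt_pi.2 fun i => by
        simp only [R, div_eq_mul_inv]
        exact (d _ x).mul ((d _ x).inv (norm_pos_iff.1
          (lt_of_lt_of_le (by positivity) (mem_iInter.1 hx.2 i))))
  obtain ⟨z, z1, z2⟩ := (dense_of_mem_residual (inter_mem r (dimInd hk _))).nonempty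
  obtain ⟨σ, s1, s2⟩ := dimExt h hk hi z2
  obtain ⟨q, l, hq⟩ := hC (fun c => σ (Θ p c)) (fun o => let ⟨b, b1, b2⟩ := g.blk p o
    ⟨b, b1, (map_ne_zero σ).2 b2⟩) fun F _ _ hF h0 => by
      obtain ⟨F', rfl⟩ := cf_iff.1 hF
      have := congrArg σ (h0 p)
      rw [map_zero, eval_map, eval₂_comp_left] at this
      rw [eval_map, ← this]
      congr 1
      exact RingHom.ext fun x => (s1 _ x.2).symm
  have hq' : ∀ c, σ (Θ p c) = l * Θ q c := congrFun hq
  have n0 : ∀ i, l ≠ 0 ∧ Θ q (b i) ≠ 0 := fun i => mul_ne_zero_iff.1 (by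
    rw [← hq', map_ne_zero]
    intro e0
    exact hi.ne_zero i (by rw [e, e0, div_zero]))
  have ev : ∀ᶠ n : ℕ in atTop, ‖q‖ ≤ n ∧ ∀ i, 1 / ((n : ℝ) + 1) ≤ ‖Θ q (b i)‖ :=
    (tendsto_natCast_atTop_atTop.eventually_ge_atTop _).and (eventually_all.2 fun i =>
      tendsto_one_div_add_atTop_nhds_zero_nat.eventually_le_const (norm_pos_iff.2 (n0 i).2))
  obtain ⟨n, n1, n2⟩ := ev.exists
  refine z1 n ⟨q, ⟨mem_closedBall_zero_iff.2 n1, mem_iInter.2 n2⟩, funext fun i => ?_⟩
  rw [← s2, e, map_div₀, hq', hq', mul_div_mul_left _ _ (n0 i).1]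

end Pool.Agent.MP_c69980_ag.H43
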